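import Pool.Agent.H72.EM.Basic

/-!
# emc_modules row UN (helper2): uniquely colourable graphs belong to all classes
-/

set_option autoImplicit false

open Finset Pool.Agent.H72.EM

namespace Pool.Agent.H2.EMC

/-- Every vertex of a properly coloured cubic graph has an edge of each colour. -/
theorem has_col {n : ℕ} (G : SimpleGraph (Fin n)) (hc : Cubic n G) (f : G.edgeSet → Fin 3)
    (hf : IsProper G f) (v : Fin n) (c : Fin 3) :
    ∃ (w : Fin n) (h : s(v, w) ∈ G.edgeSet), f ⟨s(v, w), h⟩ = c := by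
  let F : G.neighborSet v → Fin 3 := fun w => f ⟨s(v, w.1), w.2⟩
  have hinj : Function.Injective F := by
    intro w w' h
    by_contra hne
    have hww : w.1 ≠ w'.1 := fun h' => hne (Subtype.ext h')
    refine hf ⟨s(v, w.1), w.2⟩ ⟨s(v, w'.1), w'.2⟩ ?_ ⟨v, ?_, ?_⟩ h
    · intro h'
      have h2 : s(v, w.1) = s(v, w'.1) := congrArg Subtype.val h'
      exact hww (Sym2.congr_right.1 h2)
    · exact Sym2.mem_mk_left _ _
    · exact Sym2.mem_mk_left _ _
  have hbij : Function.Bijective F := by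
    rw [Nat.bijective_iff_injective_and_card]
    refine ⟨hinj, ?_⟩
    rw [Nat.card_coe_set_eq, hc v, Nat.card_eq_fintype_card, Fintype.card_fin]
  obtain ⟨w, hw⟩ := hbij.2 c
  exact ⟨w.1, w.2, hw⟩

theorem two_cols : ∀ d : Fin 3, ∃ a b : Fin 3, a ≠ d ∧ b ≠ d ∧ a ≠ b := by decide

theorem conn_of_unique {n : ℕ} (G : SimpleGraph (Fin n)) (hn : 0 < n) (hc : Cubic n G)
    (f : G.edgeSet → Fin 3) (hf : IsProper G f)
    (hu : ∀ g : G.edgeSet → Fin 3, IsProper G g → ∃ π : Equiv.Perm (Fin 3), g = π ∘ f)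
    (d : Fin 3) : (twoClasses G f d).Connected := by
  classical
  have hne : Nonempty (Fin n) := ⟨⟨0, hn⟩⟩
  rw [SimpleGraph.connected_iff]
  refine ⟨?_, hne⟩
  by_contra hcon
  unfold SimpleGraph.Preconnected at hcon
  push Not at hcon
  obtain ⟨u, v, huv⟩ := hcon
  obtain ⟨a, b, had, hbd, hab⟩ := two_cols d
  -- the endpoints of an edge whose colour is not `d`
  have hclosed : ∀ (x : G.edgeSet), f x ≠ d → ∀ w w' : Fin n, w ∈ x.1 → w' ∈ x.1 →
      (twoClasses G f d).Reachable u w → (twoClasses G f d).Reachable u w' := by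
    intro x hx w w' hw hw' hr
    by_cases hww : w = w'
    · rw [← hww]; exact hr
    · have hxe : x.1 = s(w, w') := by
        have := (Sym2.mem_and_mem_iff hww).1 ⟨hw, hw'⟩
        exact this
      have hadj : (twoClasses G f d).Adj w w' := by
        unfold twoClasses
        rw [SimpleGraph.fromEdgeSet_adj]
        refine ⟨⟨hxe ▸ x.2, ?_⟩, hww⟩
        have h2 : (⟨s(w, w'), hxe ▸ x.2⟩ : G.edgeSet) = x := Subtype.ext hxe.symm
        rw [h2]
        exact hx
      exact hr.trans hadj.reachable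
  set σ : Equiv.Perm (Fin 3) := Equiv.swap a b with hσ
  have hσd : σ d = d := Equiv.swap_apply_of_ne_of_ne had.symm hbd.symm
  set g : G.edgeSet → Fin 3 := fun x =>
    if ∃ w ∈ x.1, (twoClasses G f d).Reachable u w then σ (f x) else f x with hg
  have hgd : ∀ x, f x = d → g x = d := by
    intro x hx
    simp only [hg]
    split_ifs
    · rw [hx, hσd]
    · exact hx
  have hgK : ∀ (x : G.edgeSet) (w : Fin n), w ∈ x.1 → (twoClasses G f d).Reachable u w →
      g x = σ (f x) := by
    intro x w hw hr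
    simp only [hg]
    rw [if_pos ⟨w, hw, hr⟩]
  have hgN : ∀ (x : G.edgeSet) (w : Fin n), w ∈ x.1 → ¬ (twoClasses G f d).Reachable u w →
      g x = f x := by
    intro x w hw hr
    by_cases hx : f x = d
    · rw [hgd x hx, hx]
    · simp only [hg]
      rw [if_neg]
      rintro ⟨w', hw', hr'⟩
      exact hr (hclosed x hx w' w hw' hw hr')
  have hprop : IsProper G g := by
    intro x y hxy hv
    obtain ⟨w, hwx, hwy⟩ := hv
    have hfxy := hf x y hxy ⟨w, hwx, hwy⟩
    by_cases hr : (twoClasses G f d).Reachable u w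
    · rw [hgK x w hwx hr, hgK y w hwy hr]
      intro h
      exact hfxy (σ.injective h)
    · rw [hgN x w hwx hr, hgN y w hwy hr]
      exact hfxy
  obtain ⟨π, hπ⟩ := hu g hprop
  obtain ⟨w1, h1, e1⟩ := has_col G hc f hf v a
  obtain ⟨w2, h2, e2⟩ := has_col G hc f hf u a
  have k1 : g ⟨s(v, w1), h1⟩ = a := by
    rw [hgN _ v (Sym2.mem_mk_left _ _) huv, e1]
  have k2 : g ⟨s(u, w2), h2⟩ = b := by
    rw [hgK _ u (Sym2.mem_mk_left _ _) (SimpleGraph.Reachable.refl u), e2]
    exact Equiv.swap_apply_left a b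
  rw [hπ, Function.comp_apply, e1] at k1
  rw [hπ, Function.comp_apply, e2] at k2
  exact hab (k1.symm.trans k2)

theorem pf_UN : T_UN := by
  classical
  intro e n G he hU
  obtain ⟨hn, hc, f, hf, hu⟩ := hU
  refine ⟨hc, ⟨f, hf, fun d => conn_of_unique G hn hc f hf hu d⟩, 0, ?_, ?_⟩
  · rw [zero_pow (by omega)]
    exact Nat.zero_le _
  · choose π hπ using hu
    have hinj : Function.Injective
        (fun g : {f : G.edgeSet → Fin 3 // IsProper G f} => π g.1 g.2) := by
      intro g g' h
      apply Subtype.ext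
      rw [hπ g.1 g.2, hπ g'.1 g'.2]
      exact congrArg (fun p : Equiv.Perm (Fin 3) => p ∘ f) h
    have := Nat.card_le_card_of_injective _ hinj
    refine this.trans (le_of_eq ?_)
    rw [Nat.card_eq_fintype_card, Fintype.card_perm, Fintype.card_fin]
    decide

end Pool.Agent.H2.EMC
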